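import Mathlib
import Pool.Agent.Helper81_Sos.Final

/-!
Monomial size and bit size of sum-of-squares refutations and of PCR refutations over the rationals
are exponentially far apart on translations of CNF formulas.  The formulas are
`Pool.Agent.Helper81_Sos.hardCNF k`.
-/

namespace Pool.Agent.Results.MP_ce232536_lc.MonomialVersusBits

open Pool.Agent.Helper81_Sos

theorem result :
    (∃ c : ℕ, ∀ k : ℕ, 1 ≤ k → ∃ (V : Type) (_ : Fintype V) (F : CNF V), F.Unsat ∧
      (∃ π : SOSRefutation F, π.monomialSize ≤ c * k ^ 10) ∧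
      (∃ π : PCRRefutation F, π.monomialSize ≤ c * k ^ 10) ∧
      (∀ π : SOSRefutation F, 2 ^ k ≤ π.bits ^ 256) ∧
      (∀ π : PCRRefutation F, 2 ^ k ≤ π.bits ^ 256)) ∧
    (¬ ∃ f : Polynomial ℕ, ∀ (V : Type) [Fintype V] (F : CNF V), F.Unsat →
      ∀ π : SOSRefutation F, ∃ π' : SOSRefutation F, π'.bits ≤ f.eval π.monomialSize) ∧
    (¬ ∃ f : Polynomial ℕ, ∀ (V : Type) [Fintype V] (F : CNF V), F.Unsat →
      ∀ π : PCRRefutation F, ∃ π' : PCRRefutation F, π'.bits ≤ f.eval π.monomialSize) := by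
  refine ⟨?_, no_poly_sos, no_poly_pcr⟩
  obtain ⟨c, hc⟩ := separation
  exact ⟨c, fun k hk => ⟨_, inferInstance, hardCNF k, hc k hk⟩⟩

end Pool.Agent.Results.MP_ce232536_lc.MonomialVersusBits
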